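import Pool.Agent.Y811.PC.Stm

set_option autoImplicit false

/-!
# Project PC (helper811): the orbits of different petals are disjoint (`S_DIR`)
-/

namespace Pool.Agent.Y297.PC

open Complex Metric Set Filter Topology
open Pool.Agent.Y736.ML

/-- the class of `u` -/
noncomputable def chi (ν : ℕ) (u₀ u : ℂ) : ℂ := u / u₀ * exp (log ((u₀ / u) ^ ν) / ν)

theorem chi_pow {ν : ℕ} (hν : 1 ≤ ν) {u₀ u : ℂ} (h0 : u₀ ≠ 0) (hu : u ≠ 0) :
    chi ν u₀ u ^ ν = 1 := by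
  have hν0 : (ν : ℂ) ≠ 0 := Nat.cast_ne_zero.2 (by omega)
  have h1 : (u₀ / u) ^ ν ≠ 0 := pow_ne_zero _ (div_ne_zero h0 hu)
  have h2 : (ν : ℂ) * (log ((u₀ / u) ^ ν) / ν) = log ((u₀ / u) ^ ν) := by
    field_simp
  unfold chi
  rw [mul_pow, ← exp_nat_mul, h2, exp_log h1, ← mul_pow]
  have h3 : u / u₀ * (u₀ / u) = 1 := by field_simp
  rw [h3, one_pow]

theorem mem_slit {P Q : ℂ} (hP : 0 < P.re) (hQ : ‖Q - 1‖ ≤ 1 / 4) : P * Q ∈ slitPlane := by
  have h1 : |(Q - 1).re| ≤ 1 / 4 := (Complex.abs_re_le_norm _).trans hQ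
  rw [sub_re, one_re, abs_le] at h1
  have hq : 0 < Q.re := by linarith
  rw [mem_slitPlane_iff]
  by_contra hcon
  push Not at hcon
  obtain ⟨h2, h3⟩ := hcon
  rw [mul_re] at h2
  rw [mul_im] at h3
  have h4 : P.re * Q.re * Q.re - P.im * Q.im * Q.re ≤ 0 := by nlinarith
  have h5 : P.im * Q.re = -(P.re * Q.im) := by linarith
  have h6 : P.im * Q.im * Q.re = -(P.re * Q.im * Q.im) := by
    calc P.im * Q.im * Q.re = (P.im * Q.re) * Q.im := by ring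
      _ = _ := by rw [h5]; ring
  rw [h6] at h4
  have h7 : 0 < P.re * Q.re * Q.re := by positivity
  have h8 : 0 ≤ P.re * Q.im * Q.im := by
    have := mul_nonneg hP.le (mul_self_nonneg Q.im)
    rwa [← mul_assoc] at this
  linarith

/-- the class is constant on short segments -/
theorem chi_seg {ν : ℕ} (hν : 1 ≤ ν) {u₀ u x : ℂ} (h0 : u₀ ≠ 0) (hu : u ≠ 0)
    (hre : 0 < ((u₀ / u) ^ ν).re)
    (hx : ∀ τ : ℝ, τ ∈ Icc (0 : ℝ) 1 → ‖((1 + τ * x) ^ ν)⁻¹ - 1‖ ≤ 1 / 4) :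
    chi ν u₀ (u * (1 + x)) = chi ν u₀ u := by
  have hν0 : ν ≠ 0 := by omega
  have hT : ({z : ℂ | z ^ ν = 1}).Finite := by
    refine (Polynomial.nthRoots ν (1 : ℂ)).toFinset.finite_toSet.subset fun z hz => ?_
    rw [Finset.mem_coe, Multiset.mem_toFinset, Polynomial.mem_nthRoots (by omega)]
    exact hz
  have hne : ∀ τ : ℝ, τ ∈ Icc (0 : ℝ) 1 → (1 + τ * x) ≠ 0 := by
    intro τ hτ h
    have h1 := hx τ hτ
    rw [h, zero_pow hν0, inv_zero, zero_sub, norm_neg, norm_one] at h1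
    norm_num at h1
  have hlin : Continuous (fun τ : ℝ => u * (1 + (τ : ℂ) * x)) := by fun_prop
  have hcont : ContinuousOn (fun τ : ℝ => chi ν u₀ (u * (1 + (τ : ℂ) * x))) (Icc 0 1) := by
    unfold chi
    have h1 : ContinuousOn (fun τ : ℝ => (u₀ / (u * (1 + (τ : ℂ) * x))) ^ ν) (Icc 0 1) :=
      (continuousOn_const.div hlin.continuousOn fun τ hτ => mul_ne_zero hu (hne τ hτ)).pow ν
    refine ((hlin.div_const u₀).continuousOn).mul
      (Complex.continuous_exp.comp_continuousOn ((h1.clog fun τ hτ => ?_).div_const _))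
    have e : (u₀ / (u * (1 + (τ : ℂ) * x))) ^ ν = (u₀ / u) ^ ν * ((1 + (τ : ℂ) * x) ^ ν)⁻¹ := by
      rw [← inv_pow, ← mul_pow]
      congr 1
      have := hne τ hτ
      field_simp
    rw [e]
    exact mem_slit hre (hx τ hτ)
  have hmaps : MapsTo (fun τ : ℝ => chi ν u₀ (u * (1 + (τ : ℂ) * x))) (Icc 0 1)
      {z : ℂ | z ^ ν = 1} := fun τ hτ => chi_pow hν h0 (mul_ne_zero hu (hne τ hτ))
  have h := (isPreconnected_Icc (a := (0 : ℝ)) (b := 1)).constant_of_mapsTo hT.isDiscrete hcont hmaps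
    (right_mem_Icc.2 zero_le_one) (left_mem_Icc.2 zero_le_one)
  simpa using h

section start

variable {g : ℂ → ℂ} {z₀ : ℂ} {ν : ℕ} {a : ℂ → ℂ} {A : ℂ} {κ R w₀ : ℝ} {u₀ : ℂ}

theorem W_eq (s : Start g z₀ ν a A κ R w₀ u₀) {u : ℂ} (hu : u ≠ 0) :
    W A ν u = (w₀ : ℂ) * (u₀ / u) ^ ν := by
  have h0 := s.u0_ne
  have h1 := s.hu
  have hA := s.pet.hA
  rw [← h1]
  unfold W
  have h2 : A * u ^ ν * (u₀ / u) ^ ν = A * u₀ ^ ν := by
    rw [mul_assoc, ← mul_pow, mul_div_cancel₀ _ hu]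
  have h3 : u ^ ν ≠ 0 := pow_ne_zero _ hu
  have h4 : u₀ ^ ν ≠ 0 := pow_ne_zero _ h0
  rw [eq_comm, inv_mul_eq_div, ← h2, div_eq_iff (by rw [h2]; exact mul_ne_zero hA h4), eq_comm]
  field_simp

theorem re_pos (s : Start g z₀ ν a A κ R w₀ u₀) {u : ℂ} (hu : R < (W A ν u).re) :
    0 < ((u₀ / u) ^ ν).re := by
  have hu0 := (s.pet.loc u hu).1
  have hR := s.pet.hR
  rw [W_eq s hu0, Complex.re_ofReal_mul] at hu
  have hw := s.w0
  by_contra hcon
  push Not at hcon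
  nlinarith

theorem chi_mul (s : Start g z₀ ν a A κ R w₀ u₀) {u x : ℂ} (hu : R < (W A ν u).re)
    (hx : ‖x‖ ≤ κ) : chi ν u₀ (u * (1 + x)) = chi ν u₀ u := by
  refine chi_seg s.pet.hν s.u0_ne (s.pet.loc u hu).1 (re_pos s hu) fun τ hτ => ?_
  refine (s.kap _ ?_).1
  rw [norm_mul, Complex.norm_real, Real.norm_of_nonneg hτ.1]
  calc τ * ‖x‖ ≤ 1 * ‖x‖ := mul_le_mul_of_nonneg_right hτ.2 (norm_nonneg _)
    _ ≤ κ := by rw [one_mul]; exact hx

theorem chi_orbit (s : Start g z₀ ν a A κ R w₀ u₀) {v : ℂ} (hv : R < (W A ν v).re) (k : ℕ) :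
    chi ν u₀ (Vo g z₀ v k) = chi ν u₀ v := by
  induction k with
  | zero => rw [Vo_zero]
  | succ k ih =>
    have h1 := (s.pet.orbit hv k).1
    rw [s.pet.step k h1, chi_mul s h1 ?_, ih]
    refine (s.pet.loc _ h1).2.2.1.trans ?_
    have := s.κ0
    linarith

theorem chi_self (s : Start g z₀ ν a A κ R w₀ u₀) : chi ν u₀ u₀ = 1 := by
  unfold chi
  rw [div_self s.u0_ne, one_pow, log_one, zero_div, exp_zero, mul_one]

theorem chi_disc (s : Start g z₀ ν a A κ R w₀ u₀) {k : ℕ} {v : ℂ}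
    (hv : ‖v - Vo g z₀ u₀ k‖ < κ * ‖Vo g z₀ u₀ k‖) : chi ν u₀ v = 1 := by
  obtain ⟨u, hu⟩ : ∃ u, u = Vo g z₀ u₀ k := ⟨_, rfl⟩
  have hu0 : u ≠ 0 := by rw [hu]; exact s.uk_ne k
  have hun : 0 < ‖u‖ := norm_pos_iff.2 hu0
  have hW : R < (W A ν u).re := by rw [hu]; exact (s.pet.orbit s.re0 k).1
  have hchi : chi ν u₀ u = 1 := by rw [hu, chi_orbit s s.re0 k, chi_self s]
  rw [← hu] at hv
  have hvt : v = u * (1 + (v - u) / u) := by
    field_simp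
    ring
  rw [hvt, chi_mul s hW ?_, hchi]
  rw [norm_div, div_le_iff₀ hun]
  exact hv.le

end start

theorem t_DIR : Pool.Agent.Y811.PC.S_DIR := by
  intro g z₀ ν a A κ R w₀ u₀ u₁ s s' k k' l l' v v' hv hv' h
  have h0 := s.u0_ne
  have h1 := s'.u0_ne
  have hW : R < (W A ν v).re := s.disc k hv
  have hW' : R < (W A ν v').re := s'.disc k' hv'
  have e1 : chi ν u₀ (Vo g z₀ v l) = 1 := by rw [chi_orbit s hW l, chi_disc s hv]
  have e2 : chi ν u₁ (Vo g z₀ v l) = 1 := by rw [h, chi_orbit s' hW' l', chi_disc s' hv']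
  have hpow : u₀ ^ ν = u₁ ^ ν := by
    have a1 := s.hu
    have a2 := s'.hu
    have hA := s.pet.hA
    rw [← a2] at a1
    unfold W at a1
    exact mul_left_cancel₀ hA (inv_injective a1)
  have e3 : chi ν u₁ (Vo g z₀ v l) = u₀ / u₁ * chi ν u₀ (Vo g z₀ v l) := by
    unfold chi
    have : (u₁ / Vo g z₀ v l) ^ ν = (u₀ / Vo g z₀ v l) ^ ν := by
      rw [div_pow, div_pow, hpow]
    rw [this]
    field_simp
  rw [e1, e2, mul_one] at e3
  exact ((div_eq_one_iff_eq h1).1 e3.symm)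

end Pool.Agent.Y297.PC
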