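import Pool.Agent.Y811.PC.Stm

set_option autoImplicit false

/-!
# Project PC (helper811): normal form with holomorphic coefficients (`S_NFA`)
-/

namespace Pool.Agent.Y297.PC

open Complex Metric Set Filter Topology Pool.Agent.H712R2
open Pool.Agent.Y811.PC

section ring

variable (S : Set (ℂ × ℂ))

/-- the functions on `S` which extend to functions holomorphic on `S` -/
def Rg : Subring (S → ℂ) where
  carrier := {f | ∃ H : ℂ × ℂ → ℂ, DifferentiableOn ℂ H S ∧ ∀ p : S, f p = H p}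
  mul_mem' := by
    rintro f g ⟨H, hH, hf⟩ ⟨K, hK, hg⟩
    exact ⟨fun p => H p * K p, hH.mul hK, fun p => by rw [Pi.mul_apply, hf, hg]⟩
  one_mem' := ⟨fun _ => 1, differentiableOn_const _, fun _ => rfl⟩
  add_mem' := by
    rintro f g ⟨H, hH, hf⟩ ⟨K, hK, hg⟩
    exact ⟨fun p => H p + K p, hH.add hK, fun p => by rw [Pi.add_apply, hf, hg]⟩
  zero_mem' := ⟨fun _ => 0, differentiableOn_const _, fun _ => rfl⟩
  neg_mem' := by
    rintro f ⟨H, hH, hf⟩
    exact ⟨fun p => -H p, hH.neg, fun p => by rw [Pi.neg_apply, hf]⟩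

/-- evaluation -/
def ev (p : S) : Rg S →+* ℂ := (Pi.evalRingHom (fun _ : S => ℂ) p).comp (Rg S).subtype

theorem ev_apply (p : S) (f : Rg S) : ev S p f = (f : S → ℂ) p := rfl

/-- the parameter -/
def cc : Rg S := ⟨fun p => (p : ℂ × ℂ).1, fun p => p.1, differentiableOn_fst, fun _ => rfl⟩

/-- the point -/
def al : Rg S := ⟨fun p => (p : ℂ × ℂ).2, fun p => p.2, differentiableOn_snd, fun _ => rfl⟩

theorem isUnit_of_ne {f : Rg S} (h : ∀ p, ev S p f ≠ 0) : IsUnit f := by
  obtain ⟨H, hH, hf⟩ := f.2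
  have hne : ∀ p ∈ S, H p ≠ 0 := fun p hp => by
    have := h ⟨p, hp⟩
    rwa [ev_apply, hf] at this
  let f' : Rg S := ⟨fun p => (H p)⁻¹, fun p => (H p)⁻¹, hH.inv hne, fun _ => rfl⟩
  refine IsUnit.of_mul_eq_one f' (Subtype.ext (funext fun p => ?_))
  show (f : S → ℂ) p * (H p)⁻¹ = 1
  rw [hf]
  exact mul_inv_cancel₀ (hne p p.2)

/-- the iterates as polynomials -/
noncomputable def Qp (d : ℕ) : ℕ → Polynomial (Rg S)
  | 0 => Polynomial.C (al S) + Polynomial.X
  | j + 1 => (Qp d j) ^ d + Polynomial.C (cc S)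

theorem eval_Qp (d j : ℕ) (p : S) (u : ℂ) :
    ((Qp S d j).map (ev S p)).eval u = (fc d (p : ℂ × ℂ).1)^[j] ((p : ℂ × ℂ).2 + u) := by
  induction j with
  | zero =>
    rw [Qp, Polynomial.map_add, Polynomial.map_C, Polynomial.map_X, Polynomial.eval_add,
      Polynomial.eval_C, Polynomial.eval_X]
    rfl
  | succ j ih =>
    rw [Qp, Polynomial.map_add, Polynomial.map_pow, Polynomial.map_C, Polynomial.eval_add,
      Polynomial.eval_pow, Polynomial.eval_C, ih, Function.iterate_succ_apply']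
    rfl

theorem coeff_one_Qp (d m : ℕ) (p : S) :
    ev S p ((Qp S d m).coeff 1) = mu d m (p : ℂ × ℂ).1 (p : ℂ × ℂ).2 := by
  have h1 : (fun u : ℂ => ((Qp S d m).map (ev S p)).eval u) =
      fun u => G d m (p : ℂ × ℂ).1 ((p : ℂ × ℂ).2 + u) := by
    funext u
    exact eval_Qp S d m p u
  have h2 : deriv (fun u : ℂ => ((Qp S d m).map (ev S p)).eval u) 0 =
      ev S p ((Qp S d m).coeff 1) := by
    rw [Polynomial.deriv, ← Polynomial.coeff_zero_eq_eval_zero, Polynomial.coeff_derivative,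
      Polynomial.coeff_map]
    simp
  rw [← h2, h1, deriv_comp_const_add, add_zero]
  rfl

/-- expansion of `Qp` -/
theorem Qp_eq (d m : ℕ) : Polynomial.C ((Qp S d m).coeff 1) * Polynomial.X +
    Polynomial.X ^ 2 * (Qp S d m).divX.divX = Qp S d m - Polynomial.C ((Qp S d m).coeff 0) := by
  have h1 := Polynomial.divX_mul_X_add (Qp S d m)
  have h2 := Polynomial.divX_mul_X_add (Qp S d m).divX
  rw [Polynomial.coeff_divX, zero_add] at h2
  calc _ = ((Qp S d m).divX.divX * Polynomial.X + Polynomial.C ((Qp S d m).coeff 1)) *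
        Polynomial.X := by ring
    _ = (Qp S d m).divX * Polynomial.X := by rw [h2]
    _ = _ := by
      conv_rhs => rw [← h1]
      simp

end ring

theorem eval_sum {R : Type} [CommRing R] (f : R →+* ℂ) (s : Polynomial R) {M : ℕ}
    (hM : s.natDegree < M) (w : ℂ) :
    (s.map f).eval w = ∑ j ∈ Finset.range M, f (s.coeff j) * w ^ j := by
  rw [Polynomial.eval_eq_sum_range' (lt_of_le_of_lt Polynomial.natDegree_map_le hM)]
  simp only [Polynomial.coeff_map]

theorem t_NFA (h : S_NFALG) (hA : S_ANA) : S_NFA := by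
  intro d m q c₀ z₀ hpd
  have hq := hpd.hq
  -- the neighbourhood
  have hcont : ContinuousAt (fun p : ℂ × ℂ => mu d m p.1 p.2) (c₀, z₀) := (hA d m c₀ z₀).2.continuousAt
  have hmu0 : mu d m c₀ z₀ ≠ 0 := hpd.mul.ne_zero (by omega)
  have hev1 : ∀ᶠ p : ℂ × ℂ in 𝓝 (c₀, z₀), mu d m p.1 p.2 ≠ 0 := hcont.eventually_ne hmu0
  have hev2 : ∀ᶠ p : ℂ × ℂ in 𝓝 (c₀, z₀), ∀ j ∈ Finset.Ico 1 q, mu d m p.1 p.2 ^ j ≠ 1 := by
    rw [Filter.eventually_all_finset]
    intro j hj
    rw [Finset.mem_Ico] at hj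
    exact (hcont.pow j).eventually_ne
      (hpd.mul.pow_ne_one_of_pos_of_lt (by omega) hj.2)
  obtain ⟨ε, hε, hball⟩ := Metric.eventually_nhds_iff_ball.1 (hev1.and hev2)
  rw [← ball_prod_same] at hball
  set S : Set (ℂ × ℂ) := ball c₀ ε ×ˢ ball z₀ ε with hS
  have hlam : ∀ p : S, ev S p ((Qp S d m).coeff 1) = mu d m (p : ℂ × ℂ).1 (p : ℂ × ℂ).2 :=
    coeff_one_Qp S d m
  have hu1 : IsUnit ((Qp S d m).coeff 1) := isUnit_of_ne S fun p => by
    rw [hlam]
    exact (hball p p.2).1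
  have hu2 : ∀ j, 1 ≤ j → j < q → IsUnit ((Qp S d m).coeff 1 ^ j - 1) := by
    intro j h1 h2
    refine isUnit_of_ne S fun p => ?_
    rw [map_sub, map_pow, map_one, hlam]
    exact sub_ne_zero.2 ((hball p p.2).2 j (Finset.mem_Ico.2 ⟨h1, h2⟩))
  obtain ⟨s₁, E, B, hid⟩ := h (Rg S) q ((Qp S d m).coeff 1) (Qp S d m).divX.divX hq hu2 hu1
  rw [Qp_eq] at hid
  choose e he1 he2 using fun j : ℕ => (s₁.coeff j).2
  choose E' hE1 hE2 using fun j : ℕ => (E.coeff j).2
  obtain ⟨B', hB1, hB2⟩ := B.2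
  refine ⟨ε, e, E', B', max s₁.natDegree E.natDegree + 1, hε, he1, hE1, hB1, ?_⟩
  intro c hc α hα σ hσ u
  set p : S := ⟨(c, α), hc, hα⟩ with hp
  have hs : ∀ w : ℂ, (s₁.map (ev S p)).eval w =
      ∑ j ∈ Finset.range (max s₁.natDegree E.natDegree + 1), e j (c, α) * w ^ j := by
    intro w
    rw [eval_sum (ev S p) s₁ (Nat.lt_succ_of_le (le_max_left _ _))]
    exact Finset.sum_congr rfl fun j _ => by rw [ev_apply, he2]
  have hE : ∀ w : ℂ, (E.map (ev S p)).eval w =
      ∑ j ∈ Finset.range (max s₁.natDegree E.natDegree + 1), E' j (c, α) * w ^ j := by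
    intro w
    rw [eval_sum (ev S p) E (Nat.lt_succ_of_le (le_max_right _ _))]
    exact Finset.sum_congr rfl fun j _ => by rw [ev_apply, hE2]
  have hσ' : ∀ w : ℂ, ((Polynomial.X ^ q * (1 + Polynomial.X * s₁)).map (ev S p)).eval w =
      σ w := by
    intro w
    rw [hσ, ← hs w]
    simp only [Polynomial.map_mul, Polynomial.map_pow, Polynomial.map_X, Polynomial.map_add,
      Polynomial.map_one, Polynomial.eval_mul, Polynomial.eval_pow, Polynomial.eval_X,
      Polynomial.eval_add, Polynomial.eval_one]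
  have hg : ((Qp S d m - Polynomial.C ((Qp S d m).coeff 0)).map (ev S p)).eval u =
      G d m c (α + u) - G d m c α := by
    have h0 : ev S p ((Qp S d m).coeff 0) = G d m c α := by
      have h1 := eval_Qp S d m p 0
      rw [← Polynomial.coeff_zero_eq_eval_zero, Polynomial.coeff_map, add_zero] at h1
      exact h1
    rw [Polynomial.map_sub, Polynomial.map_C, Polynomial.eval_sub, Polynomial.eval_C, h0,
      eval_Qp]
    rfl
  obtain ⟨P0, hP0⟩ : ∃ P0, P0 = Polynomial.X ^ q * (1 + Polynomial.X * s₁) := ⟨_, rfl⟩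
  rw [← hP0] at hid hσ'
  have h2 := congrArg (fun f : Polynomial (Rg S) => (f.map (ev S p)).eval u) hid
  rw [Polynomial.map_comp, Polynomial.eval_comp, hg, hσ'] at h2
  simp only [Polynomial.map_add, Polynomial.map_mul, Polynomial.map_C, Polynomial.map_pow,
    Polynomial.map_X, Polynomial.eval_add, Polynomial.eval_mul, Polynomial.eval_C,
    Polynomial.eval_pow, Polynomial.eval_X, hσ', hE, map_pow, hlam] at h2
  rw [ev_apply, hB2] at h2
  exact h2

end Pool.Agent.Y297.PC
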